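import Pool.Agent.H.MP_521f94_lc.Mem

/-!
The subset sum problem of a finitely generated metabelian group which is not virtually nilpotent
is NP-complete.
-/

namespace Pool.Agent.Results.MP_521f94_lc.SubsetSumNPComplete

open Pool.Agent.H.MP_521f94_lc

/-- Let `G` be a metabelian group (its commutator subgroup is abelian) generated by
`x 0, ..., x (r - 1)` which has no nilpotent subgroup of finite index. Then the subset sum
problem of `G`, with words written letter by letter, is NP-complete. -/
theorem result {G : Type*} [Group G]
    (hmet : ∀ a ∈ commutator G, ∀ b ∈ commutator G, a * b = b * a)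
    (hvn : ¬ ∃ H : Subgroup G, H.FiniteIndex ∧ Group.IsNilpotent H)
    {r : ℕ} (x : Fin r → G) (hx : Subgroup.closure (Set.range x) = ⊤) :
    NPComplete (SSP x) := by
  refine ⟨inNP_SSP hmet x, ?_⟩
  intro Γ _ A hA
  obtain ⟨g, hg, h⟩ := exists_reduction hmet hvn x hx
  exact hard_of_sat (SSP x) g hg h Γ A hA

end Pool.Agent.Results.MP_521f94_lc.SubsetSumNPComplete
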